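import Pool.Agent.SZG.StmtsF

/-!
# SZG, row DAL: nonvanishing minors bound the sum over the bad places
-/

set_option autoImplicit false

namespace Pool.Agent.SZG.H47

open scoped BigOperators
open Pool.Agent.THS

theorem inf_two {K : Type} [Field K] [NumberField K] (v : NumberField.InfinitePlace K) :
    v.val 2 = 2 := by
  obtain ⟨φ, hφ⟩ := v.2
  have h1 : v.val 2 = ‖φ 2‖ := by
    rw [← hφ]; rfl
  rw [h1, map_ofNat]
  simp

theorem nv_nn {K ι : Type} [Field K] (v : AbsoluteValue K ℝ) (x : ι → K) : 0 ≤ nv v x :=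
  Real.iSup_nonneg fun i => v.nonneg (x i)

/-- splitting the column weights -/
theorem prod_split {K : Type} [Field K] {g R : ℕ} (v : AbsoluteValue K ℝ) (l : ℕ)
    (T : Idx g → Ch g → K) (W : Idx g → ℝ) (k : Fin R → ℕ) :
    ∏ j : Fin R, nv v (T 0) * W ((l * k j) • Zz g) =
      nv v (T 0) ^ R * ∏ j : Fin R, W ((l * k j) • Zz g) := by
  rw [Finset.prod_mul_distrib, Finset.prod_const, Finset.card_univ, Fintype.card_fin]

/-- powers of a bound -/
theorem pow_bd {a P Q nR A y : ℝ} {m : ℕ} (ha : 0 ≤ a) (hy : (P * Q) ^ m = y)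
    (h : a ≤ A * (P * (nR * Q))) : a ^ m ≤ y * (A * nR) ^ m := by
  have e : A * (P * (nR * Q)) = (P * Q) * (A * nR) := by ring
  rw [e] at h
  have h1 := pow_le_pow_left₀ ha h m
  rw [mul_pow, hy] at h1
  exact h1

/-- the final inequality -/
theorem final_ineq {d fr σ L C lg H Λ R R' : ℝ} (hσ : 0 ≤ σ) (hL : 2 * σ + 2 ≤ L)
    (hR : 0 < R) (hR' : R ≤ 2 * R') (hΛ : 0 ≤ Λ) (hlg : 0 ≤ lg) (hfr : fr ≤ d)
    (hH : H ≤ σ * Λ + C) (h : L * R' * Λ ≤ fr * lg + R * H) : Λ ≤ d * lg / R + C := by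
  have h1 : fr * lg ≤ d * lg := mul_le_mul_of_nonneg_right hfr hlg
  have h2 : R * H ≤ R * (σ * Λ + C) := mul_le_mul_of_nonneg_left hH hR.le
  have h3 : (σ + 1) * R ≤ L * R' := by
    have e1 : (2 * σ + 2) * R ≤ L * R := mul_le_mul_of_nonneg_right hL hR.le
    have hL0 : 0 ≤ L := by linarith
    have e2 : L * R ≤ L * (2 * R') := mul_le_mul_of_nonneg_left hR' hL0
    nlinarith
  have h4 : (σ + 1) * R * Λ ≤ L * R' * Λ := mul_le_mul_of_nonneg_right h3 hΛ
  have h5 : R * Λ ≤ d * lg + R * C := by nlinarith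
  have h6 : Λ ≤ (d * lg + R * C) / R := by
    rw [le_div_iff₀ hR]
    linarith
  have h7 : (d * lg + R * C) / R = d * lg / R + C := by
    field_simp
  rw [← h7]
  exact h6

/-- **DAL** -/
theorem dal (hDsv : DsvStmt) (hDtv : DtvStmt) (hWpr : WprStmt) (hWtx : WtxStmt)
    (hCab : CabStmt) (hPfg : PfgStmt) (hQvr : THS.QvrStatement) : DalStmt := by
  intro g σ
  obtain ⟨σ', hσ'⟩ : ∃ σ' : ℝ, σ' = max σ 0 := ⟨_, rfl⟩
  have hσ0 : 0 ≤ σ' := by rw [hσ']; exact le_max_right _ _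
  have hσσ : σ ≤ σ' := by rw [hσ']; exact le_max_left _ _
  obtain ⟨L, hL⟩ : ∃ L : ℕ, 2 * σ' + 2 ≤ (L : ℝ) := ⟨⌈2 * σ' + 2⌉₊, Nat.le_ceil _⟩
  obtain ⟨n', hn'⟩ := hDsv g L
  refine ⟨2 * 2 ^ g * (n' + 1), by positivity, ?_⟩
  intro l hl hlo d C
  obtain ⟨R, hR⟩ : ∃ R : ℕ, R = 2 * 2 ^ g * (n' + 1) * l ^ (2 * g - 1) := ⟨_, rfl⟩
  obtain ⟨R', hR'⟩ : ∃ R' : ℕ, R' = R - n' * (2 ^ g * l ^ (2 * g - 1)) := ⟨_, rfl⟩
  have hlpos : 0 < l := hl.pos
  have hRpos : 0 < R := by rw [hR]; positivity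
  have hRR' : R ≤ 2 * R' := by
    have e1 : R = 2 * (n' * (2 ^ g * l ^ (2 * g - 1))) + 2 * (2 ^ g * l ^ (2 * g - 1)) := by
      rw [hR]; ring
    omega
  obtain ⟨C', hC'⟩ : ∃ C' : ℝ, C' = (R.factorial : ℝ) * 2 ^ (g * R) := ⟨_, rfl⟩
  have hC'1 : 1 ≤ C' := by
    rw [hC']
    have e0 : 1 ≤ R.factorial := Nat.one_le_iff_ne_zero.mpr (Nat.factorial_ne_zero R)
    have e1 : (1 : ℝ) ≤ (R.factorial : ℝ) := by exact_mod_cast e0
    exact one_le_mul_of_one_le_of_one_le e1 (one_le_pow₀ (by norm_num))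
  refine ⟨d * Real.log (C' * 2 ^ (g * R)) / R + C, ?_⟩
  intro K _ _ hd E L0 c e s T x hQS hper S ev hS hH
  rw [← hR]
  intro r k hdet
  have hE : 0 < E := hQS.hE
  obtain ⟨y, hy0, hy⟩ := hWpr K g E L0 c e s T x l hQS R r k
  -- infinite places
  have hinf : ∀ v : NumberField.InfinitePlace K,
      v.val (IM l e T r k).det ^ (2 * E) ≤ v.val y * (C' * nv v.val (T 0) ^ R) ^ (2 * E) := by
    intro v
    have hwx := hWtx K (Idx g) v.val g E L0 c e s T x hQS
    have h1 := (hDtv K v.val g E L0 c e s T x _ _ l hQS hwx hper R r k).1 (inf_two v)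
    rw [prod_split] at h1
    refine pow_bd (v.val.nonneg _) (hy v.val) ?_
    rw [hC']
    exact h1
  -- finite places
  have hfin : ∀ v : NumberField.FinitePlace K,
      (v.val 2 ^ (g * R) * v.val (IM l e T r k).det) ^ (2 * E) ≤
        v.val y * (nv v.val (T 0) ^ R) ^ (2 * E) := by
    intro v
    have hna : IsNonarchimedean v.val := fun a b => NumberField.FinitePlace.add_le v a b
    have hwx := hWtx K (Idx g) v.val g E L0 c e s T x hQS
    have h1 := (hDtv K v.val g E L0 c e s T x _ _ l hQS hwx hper R r k).2 hna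
    rw [prod_split] at h1
    have h2 := pow_bd (A := 1) (m := 2 * E)
      (mul_nonneg (pow_nonneg (v.val.nonneg _) _) (v.val.nonneg _)) (hy v.val)
      (by rw [one_mul]; exact h1)
    rwa [one_mul] at h2
  have hqpos : ∀ v : NumberField.FinitePlace K, 0 < qv v := fun v => by
    have := (hQvr K v).1
    linarith
  -- places of S
  have hfS : ∀ v ∈ S, (qv v ^ (ev v * (L * R')) *
      (v.val 2 ^ (g * R) * v.val (IM l e T r k).det)) ^ (2 * E) ≤
        v.val y * (nv v.val (T 0) ^ R) ^ (2 * E) := by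
    intro v hv
    obtain ⟨h21, hev, hcm, p, q, hpq, htc⟩ := hS v hv
    have hna : IsNonarchimedean v.val := fun a b => NumberField.FinitePlace.add_le v a b
    obtain ⟨hq2, hqy⟩ := hQvr K v
    have hq0 : 0 < qv v := hqpos v
    have hρ0 : 0 < (qv v)⁻¹ := inv_pos.mpr hq0
    have hρ1 : (qv v)⁻¹ < 1 := inv_lt_one_of_one_lt₀ (by linarith)
    have hqe1 : 1 < qv v ^ ev v := one_lt_pow₀ (by linarith) (by omega)
    have hθ0 : 0 < (qv v ^ ev v)⁻¹ := inv_pos.mpr (by linarith)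
    have hθ1 : (qv v ^ ev v)⁻¹ < 1 := inv_lt_one_of_one_lt₀ hqe1
    have hwx := hWtx K (Idx g) v.val g E L0 c e s T x hQS
    have hloc := hCab K (Idx g) v.val (qv v ^ ev v)⁻¹ g E L0 c e s T x _ _ (Zz g) (0, p, q)
      hQS hwx hna h21 hθ0 hθ1 hcm htc
    have h1 := hn' K v.val (qv v ^ ev v)⁻¹ (qv v)⁻¹ E L0 c e s T x _ _ l p q hl hlo hρ0 hρ1 hqy
      hloc hpq hper R r k
    rw [prod_split, ← hR'] at h1
    have h3 : qv v ^ (ev v * (L * R')) * (((qv v ^ ev v)⁻¹ ^ L) ^ R') = 1 := by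
      rw [← pow_mul, inv_pow, ← pow_mul]
      exact mul_inv_cancel₀ (pow_pos hq0 _).ne'
    have h4 : qv v ^ (ev v * (L * R')) * (v.val 2 ^ (g * R) * v.val (IM l e T r k).det) ≤
        1 * ((∏ i : Fin R, Wf v.val E e (lft (r i).2)) *
          (nv v.val (T 0) ^ R * ∏ j : Fin R, Wf v.val E e ((l * k j) • Zz g))) := by
      rw [h21, one_pow, one_mul, ← h3, mul_assoc]
      exact mul_le_mul_of_nonneg_left h1 (pow_pos hq0 _).le
    have h5 := pow_bd (m := 2 * E) (mul_nonneg (pow_pos hq0 _).le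
      (mul_nonneg (pow_nonneg (v.val.nonneg _) _) (v.val.nonneg _))) (hy v.val) h4
    rwa [one_mul] at h5
  have hp0 : ∀ v : NumberField.FinitePlace K, 0 ≤ qv v ^ (ev v * (L * R')) := fun v =>
    (pow_pos (hqpos v) _).le
  have hmain := hPfg K (Ch g) (T 0) (IM l e T r k).det y (g * R) R (2 * E) C' S
    (fun v => qv v ^ (ev v * (L * R'))) (hQS.T0 0) hdet hy0 (by linarith) (by omega) hp0 hinf
    hfin hfS
  have hHpos : 0 < Height.mulHeight (T 0) := Height.mulHeight_pos _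
  have hlog := Real.log_le_log (Finset.prod_pos fun v _ => pow_pos (hqpos v) _) hmain
  have hC'0 : 0 < C' := by linarith
  rw [Real.log_prod (fun v _ => (pow_pos (hqpos v) _).ne'),
    Real.log_mul (by positivity) (by positivity), Real.log_pow, Real.log_pow] at hlog
  have hsum : ∑ v ∈ S, Real.log (qv v ^ (ev v * (L * R'))) =
      L * R' * ∑ v ∈ S, (ev v : ℝ) * lN v := by
    rw [Finset.mul_sum]
    refine Finset.sum_congr rfl fun v _ => ?_
    rw [Real.log_pow]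
    push_cast
    have e1 : lN v = Real.log (qv v) := rfl
    rw [e1]; ring
  rw [hsum] at hlog
  have hΛ0 : 0 ≤ ∑ v ∈ S, (ev v : ℝ) * lN v := by
    refine Finset.sum_nonneg fun v _ => mul_nonneg (Nat.cast_nonneg _) ?_
    exact Real.log_nonneg (by have := (hQvr K v).1; unfold qv at this; linarith)
  have hlg0 : 0 ≤ Real.log (C' * 2 ^ (g * R)) :=
    Real.log_nonneg (one_le_mul_of_one_le_of_one_le hC'1 (one_le_pow₀ (by norm_num)))
  refine final_ineq (fr := (Module.finrank ℚ K : ℝ)) (R' := (R' : ℝ)) hσ0 hL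
    (by exact_mod_cast hRpos) (by exact_mod_cast hRR') hΛ0 hlg0 (by exact_mod_cast hd) ?_ hlog
  refine hH.trans ?_
  have := mul_le_mul_of_nonneg_right hσσ hΛ0
  linarith

end Pool.Agent.SZG.H47
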