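import Pool.Agent.SZG.StmtsF

/-!
# SZG, row QFF: lifting of quadratic functions
-/

set_option autoImplicit false

namespace Pool.Agent.SZG.H47

open scoped BigOperators

section Gen

variable {I G ι : Type} [AddCommGroup I] [AddCommGroup G]

/-- an additive map which is zero on a basis is zero -/
theorem add_zero_of_basis (b : Module.Basis ι ℤ I) (φ : I → G)
    (hφ : ∀ i j, φ (i + j) = φ i + φ j) (hb : ∀ r, φ (b r) = 0) (i : I) : φ i = 0 := by
  have h : (AddMonoidHom.mk' φ hφ).toIntLinearMap = 0 := by
    refine b.ext fun r => ?_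
    exact hb r
  have := congrArg (fun (F : I →ₗ[ℤ] G) => F i) h
  exact this

/-- a quadratic function which is zero on a basis and has polar form zero on a basis is zero -/
theorem quad_zero (b : Module.Basis ι ℤ I) (h : I → G) (h0 : h 0 = 0)
    (he : ∀ i, h (-i) = h i)
    (hc : ∀ i j k, h (i + j + k) + h i + h j + h k = h (i + j) + h (i + k) + h (j + k))
    (h1 : ∀ r, h (b r) = 0) (h2 : ∀ r t, r ≠ t → h (b r + b t) = 0) (i : I) : h i = 0 := by
  have hP1 : ∀ i k j, h (i + k + j) - h (i + k) - h j =
      (h (i + j) - h i - h j) + (h (k + j) - h k - h j) := by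
    intro i k j
    have e := hc i k j
    have e1 : h (i + k + j) = h (i + k) + h (i + j) + h (k + j) - h i - h k - h j := by
      rw [← e]; abel
    rw [e1]; abel
  have hPs : ∀ i j, h (i + j) - h i - h j = h (j + i) - h j - h i := by
    intro i j
    rw [add_comm i j]; abel
  have hd : ∀ i, h (i + i) - h i - h i = 2 • h i := by
    intro i
    have e := hP1 i (-i) i
    rw [add_neg_cancel, zero_add, neg_add_cancel, h0, he] at e
    have e1 : h (i + i) - h i - h i = (h i - 0 - h i) - (0 - h i - h i) := by
      rw [e]; abel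
    rw [e1, two_smul]; abel
  have hbb : ∀ r t, h (b r + b t) - h (b r) - h (b t) = 0 := by
    intro r t
    by_cases hrt : r = t
    · subst hrt
      rw [hd, h1, smul_zero]
    · rw [h2 r t hrt, h1, h1]; simp
  have hib : ∀ i t, h (i + b t) - h i - h (b t) = 0 := by
    intro i t
    exact add_zero_of_basis b (fun i => h (i + b t) - h i - h (b t)) (fun i k => hP1 i k (b t))
      (fun r => hbb r t) i
  have hij : ∀ i j, h (i + j) - h i - h j = 0 := by
    intro i j
    refine add_zero_of_basis b (fun j => h (i + j) - h i - h j) (fun k l => ?_)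
      (fun t => hib i t) j
    show h (i + (k + l)) - h i - h (k + l) = (h (i + k) - h i - h k) + (h (i + l) - h i - h l)
    rw [hPs i (k + l), hPs i k, hPs i l]
    exact hP1 k l i
  refine add_zero_of_basis b h (fun i j => ?_) h1 i
  have e := hij i j
  have e1 : h (i + j) = (h (i + j) - h i - h j) + (h i + h j) := by abel
  rw [e1, e, zero_add]

end Gen

/-- **QFF** -/
theorem qff : QffStmt := by
  intro I G _ _ _ _ π f hπ f0 fe fc
  classical
  obtain ⟨σ, hσ⟩ : ∃ σ : G → ℂ, ∀ y, π (σ y) = y := ⟨fun y => (hπ y).choose, fun y =>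
    (hπ y).choose_spec⟩
  let b := Module.Free.chooseBasis ℤ I
  let β : Module.Free.ChooseBasisIndex ℤ I → Module.Free.ChooseBasisIndex ℤ I → ℂ :=
    fun r t => if r = t then σ (f (b r)) else σ (f (b r + b t) - f (b r) - f (b t)) / 2
  have hβs : ∀ r t, β r t = β t r := by
    intro r t
    by_cases hrt : r = t
    · subst hrt; rfl
    · have h1 : β r t = σ (f (b r + b t) - f (b r) - f (b t)) / 2 := if_neg hrt
      have h2 : β t r = σ (f (b t + b r) - f (b t) - f (b r)) / 2 := if_neg (Ne.symm hrt)
      rw [h1, h2, add_comm (b t) (b r)]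
      congr 2
      abel
  let B : I → I → ℂ := fun i j => ∑ r, ∑ t, β r t * (b.repr i r : ℂ) * (b.repr j t : ℂ)
  have hBs : ∀ i j, B i j = B j i := by
    intro i j
    show ∑ r, ∑ t, β r t * (b.repr i r : ℂ) * (b.repr j t : ℂ) =
      ∑ r, ∑ t, β r t * (b.repr j r : ℂ) * (b.repr i t : ℂ)
    rw [Finset.sum_comm]
    refine Finset.sum_congr rfl fun r _ => Finset.sum_congr rfl fun t _ => ?_
    rw [hβs t r]; ring
  have hBa : ∀ i j k, B (i + j) k = B i k + B j k := by
    intro i j k
    show ∑ r, ∑ t, β r t * (b.repr (i + j) r : ℂ) * (b.repr k t : ℂ) =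
      ∑ r, ∑ t, β r t * (b.repr i r : ℂ) * (b.repr k t : ℂ) +
      ∑ r, ∑ t, β r t * (b.repr j r : ℂ) * (b.repr k t : ℂ)
    rw [← Finset.sum_add_distrib]
    refine Finset.sum_congr rfl fun r _ => ?_
    rw [← Finset.sum_add_distrib]
    refine Finset.sum_congr rfl fun t _ => ?_
    rw [map_add, Finsupp.add_apply, Int.cast_add]; ring
  have hBa2 : ∀ i j k, B i (j + k) = B i j + B i k := by
    intro i j k
    rw [hBs, hBa, hBs j, hBs k]
  have hBb : ∀ r t, B (b r) (b t) = β r t := by
    intro r t
    show ∑ r', ∑ t', β r' t' * (b.repr (b r) r' : ℂ) * (b.repr (b t) t' : ℂ) = β r t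
    rw [Finset.sum_eq_single r]
    · rw [Finset.sum_eq_single t]
      · simp
      · intro t' _ ht'
        rw [b.repr_self, b.repr_self, Finsupp.single_apply, Finsupp.single_apply, if_pos rfl,
          if_neg (Ne.symm ht')]
        simp
      · intro h; exact absurd (Finset.mem_univ _) h
    · intro r' _ hr'
      refine Finset.sum_eq_zero fun t' _ => ?_
      rw [b.repr_self, Finsupp.single_apply, if_neg (Ne.symm hr')]
      simp
    · intro h; exact absurd (Finset.mem_univ _) h
  have hB0 : B 0 0 = 0 := by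
    have := hBa 0 0 0
    rw [add_zero] at this
    have h2 : B 0 0 + B 0 0 = B 0 0 + 0 := by rw [← this, add_zero]
    exact add_left_cancel h2
  have hBneg : ∀ i k, B (-i) k = - B i k := by
    intro i k
    have h0 : B 0 k = 0 := by
      have := hBa 0 0 k
      rw [add_zero] at this
      have h2 : B 0 k + B 0 k = B 0 k + 0 := by rw [← this, add_zero]
      exact add_left_cancel h2
    have := hBa (-i) i k
    rw [neg_add_cancel, h0] at this
    exact eq_neg_of_add_eq_zero_left this.symm
  refine ⟨B, hBs, hBa, fun i => ?_⟩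
  have key := quad_zero b (fun i => π (B i i) - f i) ?_ ?_ ?_ ?_ ?_ i
  · exact sub_eq_zero.1 key
  · show π (B 0 0) - f 0 = 0
    rw [hB0, f0, map_zero, sub_zero]
  · intro i
    show π (B (-i) (-i)) - f (-i) = π (B i i) - f i
    rw [fe, hBneg, hBs, hBneg, neg_neg]
  · intro i j k
    show (π (B (i + j + k) (i + j + k)) - f (i + j + k)) + (π (B i i) - f i) +
      (π (B j j) - f j) + (π (B k k) - f k) = (π (B (i + j) (i + j)) - f (i + j)) +
      (π (B (i + k) (i + k)) - f (i + k)) + (π (B (j + k) (j + k)) - f (j + k))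
    have e1 : π (B (i + j + k) (i + j + k)) + π (B i i) + π (B j j) + π (B k k) =
        π (B (i + j) (i + j)) + π (B (i + k) (i + k)) + π (B (j + k) (j + k)) := by
      rw [← map_add, ← map_add, ← map_add, ← map_add, ← map_add]
      congr 1
      simp only [hBa, hBa2]
      ring
    have e2 := fc i j k
    have e3 : (π (B (i + j + k) (i + j + k)) - f (i + j + k)) + (π (B i i) - f i) +
      (π (B j j) - f j) + (π (B k k) - f k) =
      (π (B (i + j + k) (i + j + k)) + π (B i i) + π (B j j) + π (B k k)) -
      (f (i + j + k) + f i + f j + f k) := by abel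
    rw [e3, e1, e2]; abel
  · intro r
    show π (B (b r) (b r)) - f (b r) = 0
    have h1 : β r r = σ (f (b r)) := if_pos rfl
    rw [hBb, h1, hσ, sub_self]
  · intro r t hrt
    show π (B (b r + b t) (b r + b t)) - f (b r + b t) = 0
    have h1 : β r r = σ (f (b r)) := if_pos rfl
    have h2 : β t t = σ (f (b t)) := if_pos rfl
    have h3 : β r t = σ (f (b r + b t) - f (b r) - f (b t)) / 2 := if_neg hrt
    have h4 : B (b r + b t) (b r + b t) =
        σ (f (b r)) + σ (f (b t)) + σ (f (b r + b t) - f (b r) - f (b t)) := by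
      simp only [hBa, hBa2]
      rw [hBs (b t) (b r)]
      simp only [hBb]
      rw [h1, h2, h3]
      ring
    rw [h4, map_add, map_add, hσ, hσ, hσ]
    abel

end Pool.Agent.SZG.H47
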